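import Mathlib

/-!
# The (2,3,5) relations bound the order of a group by 60
-/

namespace Pool.Agent.N311.Alt

variable {G : Type*} [Group G]

/-- Coset representatives of `⟨ab⟩`. -/
def rep (a b : G) : Fin 12 → G :=
  ![1, a, b * a, a * (b * a), b * (a * (b * a)), a * (b * (a * (b * a))),
    b * (b * (a * (b * a))), b * (a * (b * (a * (b * a)))),
    b * (b * (a * (b * (a * (b * a))))),
    a * (b * (b * (a * (b * (a * (b * a)))))),
    b * (a * (b * (b * (a * (b * (a * (b * a))))))),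
    a * (b * (a * (b * (b * (a * (b * (a * (b * a))))))))]

def σa : Fin 12 → Fin 12 := ![1, 0, 3, 2, 5, 4, 7, 6, 9, 8, 11, 10]
def ea : Fin 12 → ℕ := ![0, 0, 0, 0, 0, 0, 4, 1, 0, 0, 0, 0]
def σb : Fin 12 → Fin 12 := ![1, 2, 0, 4, 6, 7, 3, 8, 5, 10, 11, 9]
def eb : Fin 12 → ℕ := ![1, 0, 4, 0, 0, 0, 0, 0, 0, 0, 4, 1]

set_option linter.unusedSectionVars false
set_option linter.unusedSimpArgs false

section
variable {a b : G} (ha : a * a = 1) (hb : b * (b * b) = 1) (h5 : (a * b) ^ 5 = 1)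
include ha hb h5

lemma t4 : (a * b) ^ 4 = b * (b * a) := by
  have h1 : (a * b) ^ 4 * (a * b) = 1 := by rw [← pow_succ]; exact h5
  have h2 : (a * b) ^ 4 = (a * b)⁻¹ := eq_inv_of_mul_eq_one_left h1
  rw [h2, mul_inv_rev]
  have h3 : b⁻¹ = b * b := by
    rw [inv_eq_iff_mul_eq_one]; exact hb
  have h4 : a⁻¹ = a := by rw [inv_eq_iff_mul_eq_one]; exact ha
  rw [h3, h4, mul_assoc]

lemma five : a * (b * (a * (b * a))) = b * (b * (a * (b * (b * (a * (b * b)))))) := by
  have h3 : b⁻¹ = b * b := by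
    rw [inv_eq_iff_mul_eq_one]; exact hb
  have h4 : a⁻¹ = a := by rw [inv_eq_iff_mul_eq_one]; exact ha
  have h1 : (a * (b * (a * (b * a)))) * (b * (a * (b * (a * b)))) = 1 := by
    rw [← h5]; simp only [pow_succ, pow_zero, one_mul, mul_assoc]
  have h2 : a * (b * (a * (b * a))) = (b * (a * (b * (a * b))))⁻¹ :=
    eq_inv_of_mul_eq_one_left h1
  rw [h2]
  simp only [mul_inv_rev, h3, h4, mul_assoc]

lemma ra (x : G) : a * (a * x) = x := by rw [← mul_assoc, ha, one_mul]
lemma rb (x : G) : b * (b * (b * x)) = x := by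
  have : b * (b * (b * x)) = (b * (b * b)) * x := by simp only [mul_assoc]
  rw [this, hb, one_mul]

lemma five' (x : G) : a * (b * (a * (b * (a * x)))) =
    b * (b * (a * (b * (b * (a * (b * (b * x))))))) := by
  have := congrArg (· * x) (five ha hb h5)
  simpa only [mul_assoc] using this

lemma stepA (i : Fin 12) : a * rep a b i = rep a b (σa i) * (a * b) ^ (ea i) := by
  have RA := ra ha hb h5
  have RB := rb ha hb h5
  have F := five' ha hb h5
  have F0 := five ha hb h5
  have T4 := t4 ha hb h5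
  fin_cases i <;> simp [rep, σa, ea, RA, T4, mul_assoc, ha]
  · simp only [F, F0, RA, RB, ha, hb, mul_one]
  · simp only [F, F0, RA, RB, ha, hb, mul_one]

lemma stepB (i : Fin 12) : b * rep a b i = rep a b (σb i) * (a * b) ^ (eb i) := by
  have RA := ra ha hb h5
  have RB := rb ha hb h5
  have F := five' ha hb h5
  have F0 := five ha hb h5
  have T4 := t4 ha hb h5
  fin_cases i <;> simp [rep, σb, eb, RA, RB, T4, mul_assoc, ha, hb]
  all_goals (simp only [F, F0, RA, RB, ha, hb, mul_one])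

lemma mem_step (s : G) (hs : ∃ i : Fin 12, ∃ k : ℕ, s = rep a b i * (a * b) ^ k) :
    (∃ i : Fin 12, ∃ k : ℕ, a * s = rep a b i * (a * b) ^ k) ∧
      ∃ i : Fin 12, ∃ k : ℕ, b * s = rep a b i * (a * b) ^ k := by
  obtain ⟨i, k, rfl⟩ := hs
  refine ⟨⟨σa i, ea i + k, ?_⟩, ⟨σb i, eb i + k, ?_⟩⟩
  · rw [← mul_assoc, stepA ha hb h5, mul_assoc, pow_add]
  · rw [← mul_assoc, stepB ha hb h5, mul_assoc, pow_add]

lemma mem_all (x : G) (hx : x ∈ Subgroup.closure ({a, b} : Set G)) :
    ∃ i : Fin 12, ∃ k : ℕ, x = rep a b i * (a * b) ^ k := by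
  have key : ∀ s : G, (∃ i : Fin 12, ∃ k : ℕ, s = rep a b i * (a * b) ^ k) →
      (∃ i : Fin 12, ∃ k : ℕ, x * s = rep a b i * (a * b) ^ k) ∧
        (∃ i : Fin 12, ∃ k : ℕ, x⁻¹ * s = rep a b i * (a * b) ^ k) := by
    induction hx using Subgroup.closure_induction with
    | mem y hy =>
      intro s hs
      have h4 : a⁻¹ = a := by rw [inv_eq_iff_mul_eq_one]; exact ha
      have h3 : b⁻¹ = b * b := by rw [inv_eq_iff_mul_eq_one]; exact hb
      rcases hy with rfl | hy
      · rw [h4]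
        exact ⟨(mem_step ha hb h5 s hs).1, (mem_step ha hb h5 s hs).1⟩
      · rw [Set.mem_singleton_iff] at hy
        subst hy
        refine ⟨(mem_step ha hb h5 s hs).2, ?_⟩
        rw [h3, mul_assoc]
        exact (mem_step ha hb h5 _ (mem_step ha hb h5 s hs).2).2
    | one => intro s hs; simpa using hs
    | mul y z _ _ hy hz =>
      intro s hs
      refine ⟨?_, ?_⟩
      · rw [mul_assoc]; exact (hy _ (hz s hs).1).1
      · rw [mul_inv_rev, mul_assoc]; exact (hz _ (hy s hs).2).2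
    | inv y _ hy =>
      intro s hs
      refine ⟨(hy s hs).2, ?_⟩
      rw [inv_inv]; exact (hy s hs).1
  have := (key 1 ⟨0, 0, by simp [rep]⟩).1
  simpa using this

theorem card_le (hcl : Subgroup.closure ({a, b} : Set G) = ⊤) : Nat.card G ≤ 60 := by
  have hsurj : Function.Surjective
      (fun p : Fin 12 × Fin 5 => rep a b p.1 * (a * b) ^ (p.2 : ℕ)) := by
    intro x
    obtain ⟨i, k, hk⟩ := mem_all ha hb h5 x (by rw [hcl]; trivial)
    refine ⟨(i, ⟨k % 5, Nat.mod_lt _ (by norm_num)⟩), ?_⟩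
    simp only
    rw [hk, ← pow_eq_pow_mod k h5]
  haveI : Finite G := Finite.of_surjective _ hsurj
  calc Nat.card G ≤ Nat.card (Fin 12 × Fin 5) := Nat.card_le_card_of_surjective _ hsurj
    _ = 60 := by simp
end

end Pool.Agent.N311.Alt
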