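import Pool.Agent.N311.Alt.Basic

/-!
# Alternating quotients of the groups `⟨x, y, z | x^p, y^q, z^r, x y z u⟩`
-/

namespace Pool.Agent.N311.Alt

open FreeGroup (of lift)

abbrev F := FreeGroup (Fin 3)

def x : F := of 0
def y : F := of 1
def z : F := of 2

/-- `n` is admissible for `p, q, r, u`. -/
def Admissible (p q r : ℕ) (u : F) (n : ℕ) : Prop :=
  ∃ ξ η ζ : alternatingGroup (Fin n),
    Subgroup.closure {ξ, η, ζ} = ⊤ ∧ ξ ^ p = 1 ∧ η ^ q = 1 ∧ ζ ^ r = 1 ∧
      ξ * η * ζ * lift ![ξ, η, ζ] u = 1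

lemma range_lift {G : Type*} [Group G] (ξ η ζ : G) :
    (lift ![ξ, η, ζ] : F →* G).range = Subgroup.closure {ξ, η, ζ} := by
  rw [FreeGroup.range_lift_eq_closure]
  congr 1
  ext g
  simp only [Set.mem_range, Set.mem_insert_iff, Set.mem_singleton_iff]
  constructor
  · rintro ⟨i, rfl⟩
    fin_cases i <;> simp
  · rintro (rfl | rfl | rfl)
    · exact ⟨0, rfl⟩
    · exact ⟨1, rfl⟩
    · exact ⟨2, rfl⟩

lemma admissible_iff (p q r : ℕ) (u : F) (n : ℕ) : Admissible p q r u n ↔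
    ∃ ψ : F →* alternatingGroup (Fin n), Function.Surjective ψ ∧
      ψ x ^ p = 1 ∧ ψ y ^ q = 1 ∧ ψ z ^ r = 1 ∧ ψ (x * y * z * u) = 1 := by
  constructor
  · rintro ⟨ξ, η, ζ, hcl, h1, h2, h3, h4⟩
    refine ⟨lift ![ξ, η, ζ], ?_, ?_, ?_, ?_, ?_⟩
    · rw [← MonoidHom.range_eq_top, range_lift, hcl]
    · simpa [x] using h1
    · simpa [y] using h2
    · simpa [z] using h3
    · simpa [x, y, z] using h4
  · rintro ⟨ψ, hs, h1, h2, h3, h4⟩
    have hψ : lift ![ψ x, ψ y, ψ z] = ψ := by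
      ext i
      fin_cases i <;> simp [x, y, z]
    refine ⟨ψ x, ψ y, ψ z, ?_, h1, h2, h3, ?_⟩
    · rw [← range_lift, hψ, MonoidHom.range_eq_top]
      exact hs
    · rw [hψ, ← map_mul, ← map_mul, ← map_mul]
      exact h4

/-- The word `u` with `x y z u = φ (x y z)`. -/
def word (φ : F ≃* F) : F := (x * y * z)⁻¹ * φ (x * y * z)

lemma pow_conj {G H : Type*} [Group G] [Group H] (ψ : G →* H) {g h : G} (hc : IsConj g h) (p : ℕ)
    (hg : ψ g ^ p = 1) : ψ h ^ p = 1 := by
  obtain ⟨c, rfl⟩ := isConj_iff.1 hc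
  rw [map_mul, map_mul, map_inv, conj_pow, hg, mul_one, mul_inv_cancel]

lemma admissible_word (p q r : ℕ) (φ : F ≃* F) (hx : IsConj x (φ x)) (hy : IsConj y (φ y))
    (hz : IsConj z (φ z)) (n : ℕ) :
    Admissible p q r (word φ) n ↔ Admissible p q r 1 n := by
  rw [admissible_iff, admissible_iff]
  constructor
  · rintro ⟨ψ, hs, h1, h2, h3, h4⟩
    refine ⟨ψ.comp φ.toMonoidHom, hs.comp φ.surjective, ?_, ?_, ?_, ?_⟩
    · exact pow_conj ψ hx p h1
    · exact pow_conj ψ hy q h2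
    · exact pow_conj ψ hz r h3
    · have : x * y * z * word φ = φ (x * y * z) := by rw [word, mul_inv_cancel_left]
      rw [this] at h4
      rw [mul_one]
      exact h4
  · rintro ⟨ψ, hs, h1, h2, h3, h4⟩
    have key : ∀ g : F, IsConj g (φ g) → IsConj g (φ.symm g) := by
      intro g hg
      have := φ.symm.toMonoidHom.map_isConj hg
      simpa using this.symm
    refine ⟨ψ.comp φ.symm.toMonoidHom, hs.comp φ.symm.surjective, ?_, ?_, ?_, ?_⟩
    · exact pow_conj ψ (key _ hx) p h1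
    · exact pow_conj ψ (key _ hy) q h2
    · exact pow_conj ψ (key _ hz) r h3
    · have : x * y * z * word φ = φ (x * y * z) := by rw [word, mul_inv_cancel_left]
      rw [this]
      rw [mul_one] at h4
      simpa using h4

lemma mem_commutator_of_abelianization {G : Type*} [Group G] {g : G}
    (h : Abelianization.of g = 1) : g ∈ commutator G := by
  rwa [← MonoidHom.mem_ker, Abelianization.ker_of] at h

lemma word_mem (φ : F ≃* F) (hx : IsConj x (φ x)) (hy : IsConj y (φ y))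
    (hz : IsConj z (φ z)) : word φ ∈ commutator F := by
  apply mem_commutator_of_abelianization
  have key : ∀ g h : F, IsConj g h → Abelianization.of h = Abelianization.of g := by
    intro g h hc
    obtain ⟨c, rfl⟩ := isConj_iff.1 hc
    rw [map_mul, map_mul, map_inv, mul_comm, ← mul_assoc, inv_mul_cancel, one_mul]
  rw [word, map_mul, map_inv, map_mul φ, map_mul φ]
  rw [map_mul, map_mul, map_mul, map_mul, key _ _ hx, key _ _ hy, key _ _ hz]
  exact inv_mul_cancel _

/-! ### the case `2, 3, 5` with `u = 1` -/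

lemma card_alt (n : ℕ) (hn : 2 ≤ n) : 2 * Nat.card (alternatingGroup (Fin n)) = n.factorial := by
  have : Nontrivial (Fin n) := Fin.nontrivial_iff_two_le.2 hn
  rw [two_mul_nat_card_alternatingGroup, Nat.card_eq_fintype_card, Fintype.card_perm, Fintype.card_fin]

lemma not_of_ge_six (n : ℕ) (hn : 6 ≤ n) : ¬ Admissible 2 3 5 1 n := by
  rintro ⟨ξ, η, ζ, hcl, h1, h2, h3, h4⟩
  rw [map_one, mul_one] at h4
  have hζ : ζ = (ξ * η)⁻¹ := (inv_eq_of_mul_eq_one_right h4).symm
  have hcl' : Subgroup.closure ({ξ, η} : Set (alternatingGroup (Fin n))) = ⊤ := by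
    rw [eq_top_iff, ← hcl, Subgroup.closure_le]
    rintro g (rfl | rfl | hg)
    · exact Subgroup.subset_closure (by simp)
    · exact Subgroup.subset_closure (by simp)
    · rw [Set.mem_singleton_iff] at hg
      rw [hg, hζ]
      exact inv_mem (mul_mem (Subgroup.subset_closure (by simp))
        (Subgroup.subset_closure (by simp)))
  have h5 : (ξ * η) ^ 5 = 1 := by
    rw [hζ, inv_pow, inv_eq_one] at h3
    exact h3
  have hc := card_le (a := ξ) (b := η) (by rw [← pow_two]; exact h1)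
    (by rw [← h2, pow_succ, pow_two, mul_assoc]) h5 hcl'
  have h6 := card_alt n (by omega)
  have h7 : Nat.factorial 6 ≤ n.factorial := Nat.factorial_le hn
  have h8 : Nat.factorial 6 = 720 := by decide
  omega

lemma eq_one_of_pow {G : Type*} [Group G] {g : G} {m k : ℕ} (hm : g ^ m = 1) (hk : g ^ k = 1)
    (h : Nat.gcd m k = 1) : g = 1 := by
  rw [← orderOf_eq_one_iff, ← Nat.dvd_one, ← h]
  exact Nat.dvd_gcd (orderOf_dvd_of_pow_eq_one hm) (orderOf_dvd_of_pow_eq_one hk)

lemma not_of_small (n : ℕ) (h3n : 3 ≤ n) (hn : n ≤ 4) : ¬ Admissible 2 3 5 1 n := by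
  rintro ⟨ξ, η, ζ, hcl, h1, h2, h3, h4⟩
  rw [map_one, mul_one] at h4
  have hc := card_alt n (by omega)
  have hc12 : Nat.card (alternatingGroup (Fin n)) ∣ 12 ∧
      2 ≤ Nat.card (alternatingGroup (Fin n)) := by
    interval_cases n
    · have : Nat.factorial 3 = 6 := by decide
      have h : Nat.card (alternatingGroup (Fin 3)) = 3 := by omega
      rw [h]; decide
    · have : Nat.factorial 4 = 24 := by decide
      have h : Nat.card (alternatingGroup (Fin 4)) = 12 := by omega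
      rw [h]; decide
  obtain ⟨d, hd⟩ := hc12.1
  have hζ12 : ζ ^ 12 = 1 := by
    rw [hd, pow_mul, pow_card_eq_one', one_pow]
  have hζ : ζ = 1 := eq_one_of_pow h3 hζ12 (by decide)
  rw [hζ, mul_one] at h4
  have hη : η = ξ⁻¹ := (inv_eq_of_mul_eq_one_right h4).symm
  have hη2 : η ^ 2 = 1 := by rw [hη, inv_pow, h1, inv_one]
  have hη1 : η = 1 := eq_one_of_pow h2 hη2 (by decide)
  have hξ1 : ξ = 1 := by rw [hη1, mul_one] at h4; exact h4
  rw [hζ, hη1, hξ1] at hcl
  have : (⊤ : Subgroup (alternatingGroup (Fin n))) = ⊥ := by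
    rw [← hcl]; simp
  have hcard : Nat.card (⊤ : Subgroup (alternatingGroup (Fin n))) = 1 := by
    rw [this]; simp
  rw [Subgroup.card_top] at hcard
  omega

def ξ₀ : alternatingGroup (Fin 5) :=
  ⟨Equiv.swap 1 2 * Equiv.swap 3 4, by rw [Equiv.Perm.mem_alternatingGroup]; decide⟩
def η₀ : alternatingGroup (Fin 5) :=
  ⟨Equiv.swap 0 1 * Equiv.swap 1 3, by rw [Equiv.Perm.mem_alternatingGroup]; decide⟩
def ζ₀ : alternatingGroup (Fin 5) := (ξ₀ * η₀)⁻¹

set_option maxRecDepth 100000 in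
lemma admissible_five : Admissible 2 3 5 1 5 := by
  have h2 : ξ₀ ^ 2 = 1 := by decide
  have h3 : η₀ ^ 3 = 1 := by decide
  have h5 : ζ₀ ^ 5 = 1 := by decide
  refine ⟨ξ₀, η₀, ζ₀, ?_, h2, h3, h5, ?_⟩
  · set H : Subgroup (alternatingGroup (Fin 5)) := Subgroup.closure {ξ₀, η₀, ζ₀} with hH
    have hc60 : Nat.card (alternatingGroup (Fin 5)) = 60 := by
      have := card_alt 5 (by norm_num)
      have h : Nat.factorial 5 = 120 := by decide
      omega
    have d2 : 2 ∣ Nat.card H := by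
      have h : orderOf ξ₀ = 2 := orderOf_eq_prime h2 (by decide)
      have h' : orderOf ξ₀ ∣ Nat.card H :=
        Subgroup.orderOf_dvd_natCard _ (Subgroup.subset_closure (by simp))
      rw [h] at h'
      exact h'
    have d3 : 3 ∣ Nat.card H := by
      have h : orderOf η₀ = 3 := orderOf_eq_prime h3 (by decide)
      have h' : orderOf η₀ ∣ Nat.card H :=
        Subgroup.orderOf_dvd_natCard _ (Subgroup.subset_closure (by simp))
      rw [h] at h'
      exact h'
    have d5 : 5 ∣ Nat.card H := by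
      have : Fact (Nat.Prime 5) := ⟨by norm_num⟩
      have h : orderOf ζ₀ = 5 := orderOf_eq_prime h5 (by decide)
      have h' : orderOf ζ₀ ∣ Nat.card H :=
        Subgroup.orderOf_dvd_natCard _ (Subgroup.subset_closure (by simp))
      rw [h] at h'
      exact h'
    have d30 : 30 ∣ Nat.card H := by omega
    have hi := H.card_mul_index
    rw [hc60] at hi
    obtain ⟨m, hm⟩ := d30
    have hidx : H.index = 1 ∨ H.index = 2 := by
      rw [hm] at hi
      have h1 : m * H.index = 2 := by nlinarith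
      have h2 : H.index ∣ 2 := ⟨m, by rw [← h1, mul_comm]⟩
      exact (Nat.dvd_prime Nat.prime_two).1 h2
    rcases hidx with h1 | h2'
    · exact Subgroup.index_eq_one.1 h1
    · have hN : H.Normal := Subgroup.normal_of_index_eq_two h2'
      rcases hN.eq_bot_or_eq_top with h | h
      · exfalso
        have h7 : ξ₀ ∈ H := Subgroup.subset_closure (by simp)
        rw [h, Subgroup.mem_bot] at h7
        exact absurd h7 (by decide)
      · exact h
  · rw [map_one, mul_one, ζ₀, mul_inv_cancel]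

theorem admissible_one_iff (n : ℕ) (hn : 3 ≤ n) : Admissible 2 3 5 1 n ↔ n = 5 := by
  constructor
  · intro h
    by_contra hne
    rcases (show n ≤ 4 ∨ 6 ≤ n by omega) with h4 | h6
    · exact not_of_small n hn h4 h
    · exact not_of_ge_six n h6 h
  · rintro rfl
    exact admissible_five

/-! ### infinitely many words -/

/-- `x ↦ x`, `y ↦ g y g⁻¹`, `z ↦ z` where `g = (x z) ^ k`. -/
def pcHom (k : ℤ) : F →* F := lift ![x, (x * z) ^ k * y * ((x * z) ^ k)⁻¹, z]

lemma pcHom_x (k : ℤ) : pcHom k x = x := by simp [pcHom, x]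
lemma pcHom_y (k : ℤ) : pcHom k y = (x * z) ^ k * y * ((x * z) ^ k)⁻¹ := by
  simp [pcHom, y]
lemma pcHom_z (k : ℤ) : pcHom k z = z := by simp [pcHom, z]

lemma pcHom_comp (k : ℤ) : (pcHom k).comp (pcHom (-k)) = MonoidHom.id F := by
  ext i
  fin_cases i
  · change pcHom k (pcHom (-k) x) = x
    rw [pcHom_x, pcHom_x]
  · change pcHom k (pcHom (-k) y) = y
    rw [pcHom_y, map_mul, map_mul, map_inv, map_zpow, map_mul, pcHom_x, pcHom_y, pcHom_z]
    group
  · change pcHom k (pcHom (-k) z) = z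
    rw [pcHom_z, pcHom_z]

/-- The partial conjugation. -/
def pc (k : ℤ) : F ≃* F :=
  MonoidHom.toMulEquiv (pcHom k) (pcHom (-k)) (by simpa using pcHom_comp (-k)) (pcHom_comp k)

lemma pc_apply (k : ℤ) (g : F) : pc k g = pcHom k g := rfl

/-- The involution of `ℤ × Fin 5` which exchanges `(i, 4)` and `(i + 1, 0)`. -/
def invFun (s : ℤ × Fin 5) : ℤ × Fin 5 :=
  if s.2 = 4 then (s.1 + 1, 0) else if s.2 = 0 then (s.1 - 1, 4) else s

lemma invFun_invol : Function.Involutive invFun := by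
  rintro ⟨i, j⟩
  fin_cases j <;> simp [invFun]

def A : Equiv.Perm (ℤ × Fin 5) := invFun_invol.toPerm

def C : Equiv.Perm (ℤ × Fin 5) := Equiv.prodCongr (Equiv.refl ℤ) (Equiv.addRight (1 : Fin 5))

def B : Equiv.Perm (ℤ × Fin 5) :=
  Equiv.swap ((0 : ℤ), (4 : Fin 5)) (0, 0) * Equiv.swap ((0 : ℤ), (0 : Fin 5)) (0, 1)

lemma A_sq : A ^ 2 = 1 := by
  rw [pow_two]
  ext1 s
  exact invFun_invol s

lemma C_five : C ^ 5 = 1 := by
  ext1 s
  obtain ⟨i, j⟩ := s
  fin_cases j <;> simp [C, pow_succ] <;> decide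

lemma B_cube : B ^ 3 = 1 := by
  ext1 s
  by_cases h0 : s = (0, 4)
  · subst h0; simp [B, pow_succ, Equiv.swap_apply_def]
  by_cases h1 : s = (0, 0)
  · subst h1; simp [B, pow_succ, Equiv.swap_apply_def]
  by_cases h2 : s = (0, 1)
  · subst h2; simp [B, pow_succ, Equiv.swap_apply_def]
  simp [B, pow_succ, Equiv.swap_apply_def, h0, h1, h2]

lemma B_of (s : ℤ × Fin 5) (h0 : s ≠ (0, 4)) (h1 : s ≠ (0, 0)) (h2 : s ≠ (0, 1)) : B s = s := by
  simp [B, Equiv.swap_apply_def, h0, h1, h2]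

lemma B_zero : B (0, 4) = (0, 0) := by
  simp [B, Equiv.swap_apply_def]

lemma AC_four (i : ℤ) : (A * C) (i, 4) = (i - 1, 4) := by
  change invFun (i, (4 : Fin 5) + 1) = _
  simp [invFun]

lemma AC_pow_four (m : ℕ) (i : ℤ) : ((A * C) ^ m) (i, 4) = (i - m, 4) := by
  induction m generalizing i with
  | zero => simp
  | succ m ih =>
    rw [pow_succ, Equiv.Perm.mul_apply, AC_four, ih]
    push_cast
    congr 1
    ring

lemma not_comm (m : ℕ) (hm : m ≠ 0) : (A * C) ^ m * B ≠ B * (A * C) ^ m := by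
  intro h
  have h1 : ((A * C) ^ m) (B (0, 4)) = B (((A * C) ^ m) (0, 4)) :=
    congrArg (fun f : Equiv.Perm (ℤ × Fin 5) => f (0, 4)) h
  have h2 : B (((A * C) ^ m) (0, 4)) = ((A * C) ^ m) (0, 4) := by
    rw [AC_pow_four]
    have hm' : (0 : ℤ) - m ≠ 0 := by omega
    exact B_of _ (fun h => hm' (congrArg Prod.fst h)) (fun h => hm' (congrArg Prod.fst h))
      (fun h => hm' (congrArg Prod.fst h))
  rw [h2, B_zero] at h1
  have h3 := ((A * C) ^ m).injective h1
  exact absurd h3 (by decide)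

/-- The homomorphism to the permutations of `ℤ × Fin 5`. -/
def θ : F →* Equiv.Perm (ℤ × Fin 5) := lift ![A, B, C]

lemma θ_x : θ x = A := by simp [θ, x]
lemma θ_y : θ y = B := by simp [θ, y]
lemma θ_z : θ z = C := by simp [θ, z]

lemma θ_ker (g : F) (hg : g ∈ Subgroup.normalClosure ({x ^ 2, y ^ 3, z ^ 5} : Set F)) :
    θ g = 1 := by
  have h : Subgroup.normalClosure ({x ^ 2, y ^ 3, z ^ 5} : Set F) ≤ θ.ker := by
    apply Subgroup.normalClosure_le_normal
    rintro g (rfl | rfl | hg)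
    · change θ (x ^ 2) = 1
      rw [map_pow, θ_x, A_sq]
    · change θ (y ^ 3) = 1
      rw [map_pow, θ_y, B_cube]
    · rw [Set.mem_singleton_iff] at hg
      subst hg
      change θ (z ^ 5) = 1
      rw [map_pow, θ_z, C_five]
  exact h hg

lemma θ_word (k : ℕ) : θ (word (pc k)) = (A * B * C)⁻¹ * (A * ((A * C) ^ k * B * ((A * C) ^ k)⁻¹) * C) := by
  rw [word, pc_apply, map_mul, map_inv, map_mul, map_mul, map_mul (pcHom _), map_mul (pcHom _),
    pcHom_x, pcHom_y, pcHom_z]
  simp only [map_mul, map_inv, θ_x, θ_y, θ_z, zpow_natCast, map_pow]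

lemma word_ne (k m : ℕ) (hm : m ≠ 0) :
    (word (pc k))⁻¹ * word (pc ((k + m : ℕ) : ℤ)) ∉
      Subgroup.normalClosure ({x ^ 2, y ^ 3, z ^ 5} : Set F) := by
  intro h
  have h1 := θ_ker _ h
  rw [map_mul, map_inv, θ_word, θ_word, inv_mul_eq_one] at h1
  have h2 := mul_left_cancel h1
  have h3 := mul_left_cancel (mul_right_cancel h2)
  rw [pow_add] at h3
  apply not_comm m hm
  have h4 : B = (A * C) ^ m * B * ((A * C) ^ m)⁻¹ := by
    have h5 : (A * C) ^ k * B * ((A * C) ^ k)⁻¹ =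
        (A * C) ^ k * ((A * C) ^ m * B * ((A * C) ^ m)⁻¹) * ((A * C) ^ k)⁻¹ := by
      rw [h3]; group
    exact mul_left_cancel (mul_right_cancel h5)
  conv_rhs => rw [h4]
  group

lemma pc_isConj (k : ℤ) : IsConj x (pc k x) ∧ IsConj y (pc k y) ∧ IsConj z (pc k z) := by
  refine ⟨?_, ?_, ?_⟩
  · rw [pc_apply, pcHom_x]
  · rw [pc_apply, pcHom_y]
    exact isConj_iff.2 ⟨_, rfl⟩
  · rw [pc_apply, pcHom_z]

end Pool.Agent.N311.Alt
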